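import Pool.Agent.J4.H9.LD.Piece

/-! Distribution of the frequent weights over the rare ones. -/

set_option autoImplicit false

namespace Pool.Agent.J4.H9.LD

open Pool.Agent.TH207.NC

theorem tot_filter_le (P : Multiset (ℝ × Multiset ℝ)) (Q : ℝ × Multiset ℝ → Prop)
    [DecidablePred Q] : sq (tot (P.filter Q)) ≤ sq (tot P) := by
  classical
  have h := Multiset.filter_add_not Q P
  rw [← h, tot_add, sq_add, Multiset.filter_add, Multiset.filter_filter, Multiset.filter_filter]
  have e1 : P.filter (fun a => Q a ∧ Q a) = P.filter Q := by simp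
  have e2 : P.filter (fun a => Q a ∧ ¬ Q a) = 0 := by
    rw [Multiset.filter_eq_nil]
    rintro a _ ⟨h1, h2⟩
    exact h2 h1
  rw [e1, e2, add_zero]
  have := sq_nonneg' (tot (P.filter fun a => ¬ Q a))
  linarith

/-- a subfamily with prescribed area -/
theorem select {a : ℝ} (ha : 0 < a) (S : Multiset (ℝ × Multiset ℝ)) :
    (∀ p ∈ S, sq p.2 ≤ 12 * a) → 96 * a ≤ sq (tot S) →
      ∃ T ≤ S, 96 * a ≤ sq (tot T) ∧ sq (tot T) ≤ 108 * a := by
  induction S using Multiset.induction_on with
  | empty =>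
    intro _ h
    rw [tot_zero, sq_zero] at h
    exfalso
    linarith
  | cons p S ih =>
    intro h1 h2
    by_cases h3 : 96 * a ≤ sq (tot S)
    · obtain ⟨T, hT, hT'⟩ := ih (fun q hq => h1 q (Multiset.mem_cons_of_mem hq)) h3
      exact ⟨T, hT.trans (Multiset.le_cons_self S p), hT'⟩
    · refine ⟨p ::ₘ S, le_rfl, h2, ?_⟩
      rw [tot_cons, sq_add]
      have := h1 p (Multiset.mem_cons_self p S)
      push Not at h3
      linarith

/-- a group of `r.2.1` equal weights `r.1`, to be absorbed at the scale `r.2.2` -/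
def GoodR (r : ℝ × ℕ × ℝ) : Prop := 0 < r.1 ∧ r.1 ≤ r.2.2 ∧ 1 ≤ r.2.1 ∧ r.2.1 ≤ 24

/-- the weights of the groups -/
def vals (R : Multiset (ℝ × ℕ × ℝ)) : Multiset ℝ :=
  (R.map fun r => Multiset.replicate r.2.1 r.1).sum

/-- the sum of the squares of the scales -/
noncomputable def cost (R : Multiset (ℝ × ℕ × ℝ)) : ℝ := (R.map fun r => r.2.2 ^ 2).sum

theorem cost_nonneg (R : Multiset (ℝ × ℕ × ℝ)) : 0 ≤ cost R := by
  unfold cost
  apply Multiset.sum_nonneg
  intro x hx
  obtain ⟨y, -, rfl⟩ := Multiset.mem_map.1 hx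
  positivity

theorem cost_add (R R' : Multiset (ℝ × ℕ × ℝ)) : cost (R + R') = cost R + cost R' := by
  simp [cost, Multiset.map_add, Multiset.sum_add]

@[simp] theorem cost_cons (r : ℝ × ℕ × ℝ) (R : Multiset (ℝ × ℕ × ℝ)) :
    cost (r ::ₘ R) = r.2.2 ^ 2 + cost R := by simp [cost]

@[simp] theorem vals_cons (r : ℝ × ℕ × ℝ) (R : Multiset (ℝ × ℕ × ℝ)) :
    vals (r ::ₘ R) = Multiset.replicate r.2.1 r.1 + vals R := by simp [vals]

theorem vals_add (R R' : Multiset (ℝ × ℕ × ℝ)) : vals (R + R') = vals R + vals R' := by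
  simp [vals, Multiset.map_add, Multiset.sum_add]

theorem cost_mono {R R' : Multiset (ℝ × ℕ × ℝ)} (h : R ≤ R') : cost R ≤ cost R' := by
  obtain ⟨S, rfl⟩ := Multiset.le_iff_exists_add.1 h
  rw [cost_add]
  have := cost_nonneg S
  linarith

open Classical in
theorem assign (k : ℕ) : ∀ R : Multiset (ℝ × ℕ × ℝ), Multiset.card R = k →
    ∀ B : Multiset (ℝ × Multiset ℝ), Fam B → (∀ p ∈ B, sq p.2 ≤ 192 * p.1 ^ 2) →
    (∀ r ∈ R, GoodR r) →
    (∀ r ∈ R, 108 * cost (R.filter fun q => q.2.2 ≤ r.2.2) ≤
      sq (tot (B.filter fun p => 4 * p.1 ≤ r.2.2))) →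
    ∃ U V P : Multiset (ℝ × Multiset ℝ), B = U + V ∧ Fam P ∧ tot P = vals R + tot U ∧
      sq (tot U) ≤ 108 * cost R := by
  induction k with
  | zero =>
    intro R hk B _ _ _ _
    rw [Multiset.card_eq_zero] at hk
    subst hk
    refine ⟨0, B, 0, by simp, fun p hp => absurd hp (Multiset.notMem_zero p), ?_, ?_⟩
    · simp [vals]
    · simp [cost]
  | succ k ih =>
    intro R hk B hB hB2 hR hcond
    have hne : R.toFinset.Nonempty := by
      rw [Multiset.toFinset_nonempty]
      rintro rfl
      simp at hk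
    obtain ⟨r, hr, hmax⟩ := Finset.exists_max_image R.toFinset (fun r => r.2.2) hne
    rw [Multiset.mem_toFinset] at hr
    have hmax' : ∀ q ∈ R, q.2.2 ≤ r.2.2 := fun q hq => hmax q (Multiset.mem_toFinset.2 hq)
    obtain ⟨R', hR'⟩ := Multiset.exists_cons_of_mem hr
    have hall : R.filter (fun q => q.2.2 ≤ r.2.2) = R := Multiset.filter_eq_self.2 hmax'
    have hr2 := hcond r hr
    rw [hall] at hr2
    have hmem : ∀ q ∈ R', q ∈ R := fun q hq => by rw [hR']; exact Multiset.mem_cons_of_mem hq
    obtain ⟨U', V', P', hUV, hP', htot, hU'⟩ := ih R' (by rw [hR', Multiset.card_cons] at hk; omega)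
      B hB hB2 (fun q hq => hR q (hmem q hq)) (fun q hq => by
        refine le_trans ?_ (hcond q (hmem q hq))
        have : cost (R'.filter fun p => p.2.2 ≤ q.2.2) ≤ cost (R.filter fun p => p.2.2 ≤ q.2.2) := by
          apply cost_mono
          apply Multiset.filter_le_filter
          rw [hR']
          exact Multiset.le_cons_self _ _
        linarith)
    have hgr := hR r hr
    have hy : 0 < r.2.2 := lt_of_lt_of_le hgr.1 hgr.2.1
    have hcost : cost R = r.2.2 ^ 2 + cost R' := by rw [hR', cost_cons]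
    have hfilt : sq (tot (B.filter fun p => 4 * p.1 ≤ r.2.2)) =
        sq (tot (U'.filter fun p => 4 * p.1 ≤ r.2.2)) +
          sq (tot (V'.filter fun p => 4 * p.1 ≤ r.2.2)) := by
      rw [hUV, Multiset.filter_add, tot_add, sq_add]
    have hUf := tot_filter_le U' (fun p => 4 * p.1 ≤ r.2.2)
    obtain ⟨T, hT, hT1, hT2⟩ := select (a := r.2.2 ^ 2) (by positivity)
      (V'.filter fun p => 4 * p.1 ≤ r.2.2) (fun p hp => by
        rw [Multiset.mem_filter] at hp
        have hpB : p ∈ B := by rw [hUV]; exact Multiset.mem_add.2 (Or.inr hp.1)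
        have h1 := hB2 p hpB
        have h2 := (hB p hpB).pos
        have h3 : 16 * p.1 ^ 2 ≤ r.2.2 ^ 2 := by nlinarith [hp.2]
        linarith) (by nlinarith)
    have hTV : T ≤ V' := hT.trans (Multiset.filter_le _ _)
    obtain ⟨V, hV⟩ := Multiset.le_iff_exists_add.1 hTV
    refine ⟨U' + T, V, (r.2.2, Multiset.replicate r.2.1 r.1 + tot T) ::ₘ P', ?_, ?_, ?_, ?_⟩
    · rw [hUV, hV, add_assoc]
    · refine hP'.cons (Pc.tube (P := T) ?_ hgr.1 hgr.2.1 hgr.2.2.1 hgr.2.2.2 ?_ hT1)
      · intro p hp
        refine hB p ?_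
        rw [hUV, Multiset.mem_add]
        exact Or.inr (Multiset.mem_of_le hTV hp)
      · intro p hp
        exact (Multiset.mem_filter.1 (Multiset.mem_of_le hT hp)).2
    · rw [tot_cons, htot, hR', vals_cons, tot_add]
      simp only
      abel
    · rw [tot_add, sq_add, hcost]
      linarith

/-- a multiset of equal weights is a union of blocks -/
theorem blocks_one {v : ℝ} (hv : 0 < v) (n : ℕ) : 96 ≤ n → ∃ B : Multiset (ℝ × Multiset ℝ),
    Fam B ∧ (∀ p ∈ B, sq p.2 ≤ 192 * p.1 ^ 2) ∧ (∀ p ∈ B, ∃ k, p.2 = Multiset.replicate k p.1) ∧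
      tot B = Multiset.replicate n v := by
  induction n using Nat.strong_induction_on with
  | _ n ih =>
    intro hn
    by_cases h : n ≤ 192
    · refine ⟨(v, Multiset.replicate n v) ::ₘ 0, ?_, ?_, ?_, by
        rw [tot_cons, tot_zero, add_zero]⟩
      · exact Fam.cons (fun p hp => absurd hp (Multiset.notMem_zero p)) (Pc.block hn hv)
      · intro p hp
        rcases Multiset.mem_cons.1 hp with rfl | h'
        · rw [sq_replicate]
          have : (n : ℝ) ≤ 192 := by exact_mod_cast h
          exact mul_le_mul_of_nonneg_right this (sq_nonneg _)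
        · exact absurd h' (Multiset.notMem_zero p)
      · intro p hp
        rcases Multiset.mem_cons.1 hp with rfl | h'
        · exact ⟨n, rfl⟩
        · exact absurd h' (Multiset.notMem_zero p)
    · obtain ⟨B, h1, h2, h3, h4⟩ := ih (n - 96) (by omega) (by omega)
      refine ⟨(v, Multiset.replicate 96 v) ::ₘ B, h1.cons (Pc.block le_rfl hv), ?_, ?_, ?_⟩
      · intro p hp
        rcases Multiset.mem_cons.1 hp with rfl | h'
        · rw [sq_replicate]
          have := sq_nonneg v
          push_cast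
          linarith
        · exact h2 p h'
      · intro p hp
        rcases Multiset.mem_cons.1 hp with rfl | h'
        · exact ⟨96, rfl⟩
        · exact h3 p h'
      · rw [tot_cons, h4, ← Multiset.replicate_add]
        congr 1
        omega

open Classical in
/-- frequent weights are a union of blocks -/
theorem blocks_all (n : ℕ) : ∀ F : Multiset ℝ, Multiset.card F = n →
    (∀ v ∈ F, 0 < v ∧ 96 ≤ F.count v) → ∃ B : Multiset (ℝ × Multiset ℝ),
    Fam B ∧ (∀ p ∈ B, sq p.2 ≤ 192 * p.1 ^ 2) ∧ (∀ p ∈ B, ∃ k, p.2 = Multiset.replicate k p.1) ∧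
      tot B = F := by
  induction n using Nat.strong_induction_on with
  | _ n ih =>
    intro F hn hF
    by_cases h0 : F = 0
    · subst h0
      exact ⟨0, fun p hp => absurd hp (Multiset.notMem_zero p),
        fun p hp => absurd hp (Multiset.notMem_zero p),
        fun p hp => absurd hp (Multiset.notMem_zero p), by simp⟩
    obtain ⟨v, hv⟩ := Multiset.exists_mem_of_ne_zero h0
    have hsplit := Multiset.filter_add_not (fun x => x = v) F
    have h1 : F.filter (fun x => x = v) = Multiset.replicate (F.count v) v :=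
      Multiset.filter_eq' F v
    have h2 : Multiset.card (F.filter fun x => ¬ x = v) < n := by
      have h3 : Multiset.card F = Multiset.card (F.filter fun x => x = v) +
          Multiset.card (F.filter fun x => ¬ x = v) := by
        rw [← Multiset.card_add, hsplit]
      rw [h1, Multiset.card_replicate] at h3
      have := (hF v hv).2
      omega
    obtain ⟨B₂, a1, a2, a3, a4⟩ := ih _ h2 (F.filter fun x => ¬ x = v) rfl (fun w hw => by
      rw [Multiset.mem_filter] at hw
      refine ⟨(hF w hw.1).1, ?_⟩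
      rw [Multiset.count_filter_of_pos (p := fun x => ¬ x = v) hw.2]
      exact (hF w hw.1).2)
    obtain ⟨B₁, b1, b2, b3, b4⟩ := blocks_one (hF v hv).1 (F.count v) (hF v hv).2
    refine ⟨B₁ + B₂, b1.add a1, ?_, ?_, ?_⟩
    · intro p hp
      rcases Multiset.mem_add.1 hp with h | h
      · exact b2 p h
      · exact a2 p h
    · intro p hp
      rcases Multiset.mem_add.1 hp with h | h
      · exact b3 p h
      · exact a3 p h
    · rw [tot_add, b4, a4, ← h1, hsplit]

open Classical in
theorem tot_filter (Q : ℝ → Prop) (B : Multiset (ℝ × Multiset ℝ)) :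
    (∀ p ∈ B, ∃ k, p.2 = Multiset.replicate k p.1) →
      tot (B.filter fun p => Q p.1) = (tot B).filter Q := by
  induction B using Multiset.induction_on with
  | empty => intro _; simp
  | cons p B ih =>
    intro h
    obtain ⟨k, hk⟩ := h p (Multiset.mem_cons_self p B)
    have h1 := ih fun q hq => h q (Multiset.mem_cons_of_mem hq)
    rw [tot_cons, Multiset.filter_add, ← h1, hk]
    by_cases hQ : Q p.1
    · have h2 : (Multiset.replicate k p.1).filter Q = Multiset.replicate k p.1 := by
        rw [Multiset.filter_eq_self]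
        intro a ha
        rw [Multiset.eq_of_mem_replicate ha]
        exact hQ
      rw [Multiset.filter_cons_of_pos (p := fun p : ℝ × Multiset ℝ => Q p.1) _ hQ, tot_cons, h2, hk]
    · have h2 : (Multiset.replicate k p.1).filter Q = 0 := by
        rw [Multiset.filter_eq_nil]
        intro a ha
        rw [Multiset.eq_of_mem_replicate ha]
        exact hQ
      rw [Multiset.filter_cons_of_neg (p := fun p : ℝ × Multiset ℝ => Q p.1) _ hQ, h2, zero_add]

open Classical in
/-- frequent weights and rare groups of equal weights fill the plane -/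
theorem plane (F : Multiset ℝ) (hF : ∀ v ∈ F, 0 < v ∧ 96 ≤ F.count v)
    (R : Multiset (ℝ × ℕ × ℝ)) (hR : ∀ r ∈ R, GoodR r)
    (hcond : ∀ r ∈ R, 108 * cost (R.filter fun q => q.2.2 ≤ r.2.2) ≤
      sq (F.filter fun v => 4 * v ≤ r.2.2)) (hne : F ≠ 0) :
    ∃ μ : ℝ, TFM 9 μ (vals R + F) (√(sq (vals R + F)) / 3) := by
  obtain ⟨B, b1, b2, b3, b4⟩ := blocks_all _ F rfl hF
  obtain ⟨U, V, P, hUV, hP, htot, -⟩ := assign _ R rfl B b1 b2 hR (fun r hr => by
    rw [tot_filter (fun v => 4 * v ≤ r.2.2) B b3, b4]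
    exact hcond r hr)
  have hV : Fam V := fun p hp => b1 p (by rw [hUV, Multiset.mem_add]; exact Or.inr hp)
  have h1 : tot (P + V) = vals R + F := by
    rw [tot_add, htot, add_assoc, ← tot_add, ← hUV, b4]
  have h2 := Fam.plane (hP.add hV) (by
    intro h0
    rw [h0, tot_zero] at h1
    apply hne
    have h3 := (add_eq_zero_iff_of_nonneg (Multiset.zero_le _) (Multiset.zero_le _)).1 h1.symm
    exact h3.2)
  rwa [h1] at h2

end Pool.Agent.J4.H9.LD
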