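import Pool.Agent.J4.H9.LD.Assign

/-! The main theorem on pieces for the coefficients of a divisor class. -/

set_option autoImplicit false

namespace Pool.Agent.J4.H9.LD

open Pool.Agent.TH207.NC Finset

/-- how often the value `v` is taken -/
noncomputable def times {n : ℕ} (x : Fin n → ℝ) (v : ℝ) : ℕ :=
  (univ.filter fun j => x j = v).card

/-- The values in `R` are rare, all other nonzero values are taken at least `96` times. A rare value
`v` is absorbed at the scale `y v ≥ v`, and for every rare value `v` the rare values of scale at most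
`y v` are dominated by the frequent values which are at most `y v / 4`. -/
structure Dominated {n : ℕ} (x : Fin n → ℝ) (R : Finset ℝ) (y : ℝ → ℝ) : Prop where
  pos : ∀ v ∈ R, 0 < v
  le : ∀ v ∈ R, v ≤ y v
  often : ∀ j, x j ∉ R → x j ≠ 0 → 96 ≤ times x (x j)
  small : ∀ v ∈ R, ∑ w ∈ R.filter (fun w => y w ≤ y v), (104 + 5 * (times x w : ℝ)) * y w ^ 2 ≤
    ∑ j ∈ univ.filter (fun j => x j ∉ R ∧ 4 * x j ≤ y v), x j ^ 2

/-- groups of at most `24` equal weights -/
theorem groups {v y : ℝ} (hv : 0 < v) (hy : v ≤ y) (n : ℕ) : ∃ Q : Multiset (ℝ × ℕ × ℝ),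
    (∀ r ∈ Q, GoodR r ∧ r.2.2 = y) ∧ vals Q = Multiset.replicate n v ∧
      108 * cost Q ≤ (104 + 5 * (n : ℝ)) * y ^ 2 := by
  suffices h : ∃ Q : Multiset (ℝ × ℕ × ℝ),
      (∀ r ∈ Q, GoodR r ∧ r.2.2 = y) ∧ vals Q = Multiset.replicate n v ∧
      cost Q = Multiset.card Q * y ^ 2 ∧ 24 * Multiset.card Q ≤ n + 23 by
    obtain ⟨Q, h1, h2, h3, h4⟩ := h
    refine ⟨Q, h1, h2, ?_⟩
    rw [h3, ← mul_assoc]
    apply mul_le_mul_of_nonneg_right _ (sq_nonneg _)
    have h5 : (24 : ℝ) * Multiset.card Q ≤ n + 23 := by exact_mod_cast h4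
    linarith
  induction n using Nat.strong_induction_on with
  | _ n ih =>
    by_cases h0 : n = 0
    · subst h0
      exact ⟨0, fun r hr => absurd hr (Multiset.notMem_zero r), by simp [vals], by simp [cost],
        by simp⟩
    by_cases h24 : n ≤ 24
    · refine ⟨{(v, n, y)}, ?_, by simp [vals], by simp [cost], by simp; omega⟩
      intro r hr
      rw [Multiset.mem_singleton] at hr
      subst hr
      exact ⟨⟨hv, hy, by simp; omega, h24⟩, rfl⟩
    · obtain ⟨Q, h1, h2, h3, h4⟩ := ih (n - 24) (by omega)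
      refine ⟨(v, 24, y) ::ₘ Q, ?_, ?_, ?_, ?_⟩
      · intro r hr
        rcases Multiset.mem_cons.1 hr with rfl | h'
        · exact ⟨⟨hv, hy, by norm_num, le_rfl⟩, rfl⟩
        · exact h1 r h'
      · rw [vals_cons, h2, ← Multiset.replicate_add]
        simp only
        congr 1
        omega
      · rw [cost_cons, h3, Multiset.card_cons]
        push_cast
        ring
      · rw [Multiset.card_cons]
        omega

theorem vals_sum {ι : Type} (s : Finset ι) (f : ι → Multiset (ℝ × ℕ × ℝ)) :
    vals (∑ i ∈ s, f i) = ∑ i ∈ s, vals (f i) := by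
  classical
  induction s using Finset.induction_on with
  | empty => simp [vals]
  | insert a s ha ih => rw [Finset.sum_insert ha, Finset.sum_insert ha, vals_add, ih]

theorem cost_sum {ι : Type} (s : Finset ι) (f : ι → Multiset (ℝ × ℕ × ℝ)) :
    cost (∑ i ∈ s, f i) = ∑ i ∈ s, cost (f i) := by
  classical
  induction s using Finset.induction_on with
  | empty => simp [cost]
  | insert a s ha ih => rw [Finset.sum_insert ha, Finset.sum_insert ha, cost_add, ih]

open Classical in
theorem filter_sum {ι α : Type} (s : Finset ι) (f : ι → Multiset α) (P : α → Prop) :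
    (∑ i ∈ s, f i).filter P = ∑ i ∈ s, (f i).filter P := by
  induction s using Finset.induction_on with
  | empty => simp
  | insert a s ha ih => rw [Finset.sum_insert ha, Finset.sum_insert ha, Multiset.filter_add, ih]

theorem sq_filter {n : ℕ} (x : Fin n → ℝ) (P : ℝ → Prop) [DecidablePred P] :
    sq (((univ : Finset (Fin n)).val.map x).filter P) =
      ∑ j ∈ univ.filter (fun j => P (x j)), x j ^ 2 := by
  rw [sq, Multiset.filter_map, Multiset.map_map]
  rfl

open Classical in
theorem Dominated.plane {n : ℕ} {x : Fin n → ℝ} {R : Finset ℝ} {y : ℝ → ℝ}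
    (hx : ∀ j, 0 ≤ x j) (h : Dominated x R y) (hne : ∃ j, x j ≠ 0) :
    ∃ μ : ℝ, TFM 9 μ (((univ : Finset (Fin n)).val.map x).filter fun v => v ≠ 0)
      (√(∑ j, x j ^ 2) / 3) := by
  obtain ⟨M, hM⟩ : ∃ M : Multiset ℝ, M = (univ : Finset (Fin n)).val.map x := ⟨_, rfl⟩
  have hcount : ∀ v, M.count v = times x v := by
    intro v
    rw [hM, Multiset.count_map, times, Finset.card_def, Finset.filter_val]
    congr 1
    apply Multiset.filter_congr
    intro a _
    exact eq_comm
  -- the frequent values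
  obtain ⟨F, hF⟩ : ∃ F : Multiset ℝ, F = M.filter fun v => v ≠ 0 ∧ v ∉ R := ⟨_, rfl⟩
  have hFc : ∀ v ∈ F, 0 < v ∧ 96 ≤ F.count v := by
    intro v hv
    rw [hF, Multiset.mem_filter] at hv
    obtain ⟨hv1, hv2, hv3⟩ := hv
    have hv1' := hv1
    rw [hM, Multiset.mem_map] at hv1
    obtain ⟨j, -, rfl⟩ := hv1
    refine ⟨lt_of_le_of_ne (hx j) (Ne.symm hv2), ?_⟩
    rw [hF, Multiset.count_filter_of_pos (p := fun v => v ≠ 0 ∧ v ∉ R) ⟨hv2, hv3⟩, hcount]
    exact h.often j hv3 hv2
  -- the rare values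
  have hex : ∀ w, ∃ Q : Multiset (ℝ × ℕ × ℝ), w ∈ R →
      ((∀ r ∈ Q, GoodR r ∧ r.2.2 = y w) ∧ vals Q = Multiset.replicate (times x w) w ∧
      108 * cost Q ≤ (104 + 5 * (times x w : ℝ)) * y w ^ 2) := by
    intro w
    by_cases hw : w ∈ R
    · obtain ⟨Q, hQ⟩ := groups (h.pos w hw) (h.le w hw) (times x w)
      exact ⟨Q, fun _ => hQ⟩
    · exact ⟨0, fun h => absurd h hw⟩
  choose Q hQ using hex
  have hvals : vals (∑ w ∈ R, Q w) = M.filter fun v => v ∈ R := by
    rw [vals_sum]
    ext a
    rw [Multiset.count_sum', Multiset.count_filter]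
    by_cases ha : a ∈ R
    · rw [if_pos ha, Finset.sum_eq_single a, (hQ a ha).2.1, Multiset.count_replicate_self, hcount]
      · intro b hb hba
        rw [(hQ b hb).2.1, Multiset.count_replicate, if_neg hba]
      · intro h1
        exact absurd ha h1
    · rw [if_neg ha]
      apply Finset.sum_eq_zero
      intro b hb
      rw [(hQ b hb).2.1, Multiset.count_replicate, if_neg]
      rintro rfl
      exact ha hb
  have htotal : vals (∑ w ∈ R, Q w) + F = M.filter fun v => v ≠ 0 := by
    rw [hvals, hF]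
    ext a
    rw [Multiset.count_add, Multiset.count_filter, Multiset.count_filter, Multiset.count_filter]
    by_cases ha : a ∈ R
    · have ha0 : a ≠ 0 := (h.pos a ha).ne'
      simp [ha, ha0]
    · by_cases ha0 : a = 0
      · simp [ha0, show (0 : ℝ) ∉ R from by rw [ha0] at ha; exact ha]
      · simp [ha, ha0]
  have hsq : ∑ j, x j ^ 2 = sq (M.filter fun v => v ≠ 0) := by
    rw [hM, sq_filter]
    refine (Finset.sum_subset (Finset.filter_subset _ _) fun j _ hj => ?_).symm
    rw [Finset.mem_filter] at hj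
    have : x j = 0 := by
      by_contra h0
      exact hj ⟨Finset.mem_univ j, h0⟩
    rw [this]
    norm_num
  have hcond : ∀ r ∈ ∑ w ∈ R, Q w,
      108 * cost ((∑ w ∈ R, Q w).filter fun q => q.2.2 ≤ r.2.2) ≤
        sq (F.filter fun v => 4 * v ≤ r.2.2) := by
    intro r hr
    rw [Multiset.mem_sum] at hr
    obtain ⟨v, hv, hr⟩ := hr
    have hry : r.2.2 = y v := ((hQ v hv).1 r hr).2
    rw [hry, filter_sum, cost_sum]
    have h1 : ∀ w ∈ R, cost ((Q w).filter fun q => q.2.2 ≤ y v) =
        if y w ≤ y v then cost (Q w) else 0 := by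
      intro w hw
      by_cases hwv : y w ≤ y v
      · rw [if_pos hwv, Multiset.filter_eq_self.2]
        intro q hq
        rw [((hQ w hw).1 q hq).2]
        exact hwv
      · rw [if_neg hwv, Multiset.filter_eq_nil.2]
        · simp [cost]
        · intro q hq
          rw [((hQ w hw).1 q hq).2]
          exact hwv
    rw [Finset.sum_congr rfl h1, ← Finset.sum_filter, Finset.mul_sum]
    refine le_trans (Finset.sum_le_sum fun w hw => (hQ w (Finset.mem_filter.1 hw).1).2.2) ?_
    refine (h.small v hv).trans (le_of_eq ?_)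
    rw [hF, Multiset.filter_filter, hM, sq_filter]
    refine (Finset.sum_subset (fun j hj => ?_) fun j hj hj' => ?_).symm
    · rw [Finset.mem_filter] at hj ⊢
      exact ⟨hj.1, hj.2.2.2, hj.2.1⟩
    · rw [Finset.mem_filter] at hj
      have : x j = 0 := by
        by_contra h0
        exact hj' (Finset.mem_filter.2 ⟨hj.1, hj.2.2, h0, hj.2.1⟩)
      rw [this]
      norm_num
  have hF0 : F ≠ 0 := by
    intro hF0
    obtain ⟨j, hj⟩ := hne
    have hjR : x j ∈ R := by
      by_contra hjR
      have : x j ∈ F := by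
        rw [hF, Multiset.mem_filter]
        refine ⟨?_, hj, hjR⟩
        rw [hM]
        exact Multiset.mem_map_of_mem x (Finset.mem_univ j)
      rw [hF0] at this
      exact absurd this (Multiset.notMem_zero _)
    have h1 := h.small _ hjR
    have h2 : ∑ i ∈ univ.filter (fun i => x i ∉ R ∧ 4 * x i ≤ y (x j)), x i ^ 2 = 0 := by
      apply Finset.sum_eq_zero
      intro i hi
      rw [Finset.mem_filter] at hi
      have : x i = 0 := by
        by_contra h0
        have : x i ∈ F := by
          rw [hF, Multiset.mem_filter]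
          refine ⟨?_, h0, hi.2.1⟩
          rw [hM]
          exact Multiset.mem_map_of_mem x (Finset.mem_univ i)
        rw [hF0] at this
        exact absurd this (Multiset.notMem_zero _)
      rw [this]
      norm_num
    rw [h2] at h1
    have h3 : (104 + 5 * (times x (x j) : ℝ)) * y (x j) ^ 2 ≤
        ∑ w ∈ R.filter (fun w => y w ≤ y (x j)), (104 + 5 * (times x w : ℝ)) * y w ^ 2 :=
      Finset.single_le_sum (f := fun w => (104 + 5 * (times x w : ℝ)) * y w ^ 2)
        (fun w _ => by positivity) (Finset.mem_filter.2 ⟨hjR, le_rfl⟩)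
    have h4 : 0 < y (x j) := lt_of_lt_of_le (h.pos _ hjR) (h.le _ hjR)
    have h5 : 0 < (104 + 5 * (times x (x j) : ℝ)) * y (x j) ^ 2 := by positivity
    linarith
  have key := LD.plane F hFc (∑ w ∈ R, Q w) (fun r hr => by
    rw [Multiset.mem_sum] at hr
    obtain ⟨v, hv, hr⟩ := hr
    exact ((hQ v hv).1 r hr).1) hcond hF0
  rw [htotal] at key
  rw [hsq, ← hM]
  exact key

theorem Dominated.form {n : ℕ} {x : Fin n → ℝ} {R : Finset ℝ} {y : ℝ → ℝ}
    (hx : ∀ j, 0 ≤ x j) (h : Dominated x R y) (hne : ∃ j, x j ≠ 0) :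
    ∃ μ : ℝ, TF 9 μ (fun i : {j // x j ≠ 0} => x i) (√(∑ i : {j // x j ≠ 0}, x i ^ 2) / 3) := by
  classical
  obtain ⟨μ, hμ⟩ := h.plane hx hne
  refine ⟨μ, ?_⟩
  have h1 := hμ {j // x j ≠ 0} (fun i => x i) (by
    have e : (univ : Finset {j // x j ≠ 0}).val.map (fun i : {j // x j ≠ 0} => x i.1) =
        ((univ : Finset {j // x j ≠ 0}).val.map Subtype.val).map x := by
      rw [Multiset.map_map]
      rfl
    rw [e, Finset.univ_val_map_subtype_val, Multiset.filter_map, Finset.filter_val]
    rfl)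
  have e2 : ∑ i : {j // x j ≠ 0}, x i ^ 2 = ∑ j, x j ^ 2 := by
    rw [← Finset.sum_subtype (univ.filter fun j => x j ≠ 0) (fun j => by simp) fun j => x j ^ 2]
    refine Finset.sum_subset (Finset.filter_subset _ _) fun j _ hj => ?_
    rw [Finset.mem_filter] at hj
    have : x j = 0 := by
      by_contra h0
      exact hj ⟨Finset.mem_univ j, h0⟩
    rw [this]
    norm_num
  rw [e2]
  exact h1

end Pool.Agent.J4.H9.LD
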