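import Pool.Agent.J4.H9.LD.TFM

/-! Pieces: multisets of weights which fill all triangles of height between `2 s` and `8 s`. Any
union of pieces, of arbitrary scales, fills the plane; a group of at most `24` equal weights
together with smaller pieces is a piece. -/

set_option autoImplicit false

namespace Pool.Agent.J4.H9.LD

open Pool.Agent.TH207.NC

/-- a piece of scale `s` -/
structure Pc (s : ℝ) (M : Multiset ℝ) : Prop where
  pos : 0 < s
  area : 96 * s ^ 2 ≤ sq M
  fits : ∀ A, 2 * s ≤ A → A ≤ 8 * s → ∀ μ, TFM (sq M / A ^ 2) μ M A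

/-- the union of the pieces of a family -/
def tot (P : Multiset (ℝ × Multiset ℝ)) : Multiset ℝ := (P.map Prod.snd).sum

@[simp] theorem tot_zero : tot 0 = 0 := by simp [tot]

@[simp] theorem tot_cons (p : ℝ × Multiset ℝ) (P : Multiset (ℝ × Multiset ℝ)) :
    tot (p ::ₘ P) = p.2 + tot P := by simp [tot]

theorem tot_add (P Q : Multiset (ℝ × Multiset ℝ)) : tot (P + Q) = tot P + tot Q := by
  simp [tot, Multiset.map_add, Multiset.sum_add]

/-- a family of pieces -/
def Fam (P : Multiset (ℝ × Multiset ℝ)) : Prop := ∀ p ∈ P, Pc p.1 p.2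

theorem Fam.sq_ge {P : Multiset (ℝ × Multiset ℝ)} (hP : Fam P) {p : ℝ × Multiset ℝ}
    (hp : p ∈ P) : 96 * p.1 ^ 2 ≤ sq (tot P) := by
  obtain ⟨Q, rfl⟩ := Multiset.exists_cons_of_mem hp
  rw [tot_cons, sq_add]
  have := (hP p hp).area
  have := sq_nonneg' (tot Q)
  linarith

theorem Fam.add {P Q : Multiset (ℝ × Multiset ℝ)} (hP : Fam P) (hQ : Fam Q) : Fam (P + Q) := by
  intro p hp
  rcases Multiset.mem_add.1 hp with h | h
  · exact hP p h
  · exact hQ p h

theorem Fam.cons {P : Multiset (ℝ × Multiset ℝ)} {s : ℝ} {M : Multiset ℝ} (hP : Fam P)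
    (h : Pc s M) : Fam ((s, M) ::ₘ P) := by
  intro p hp
  rcases Multiset.mem_cons.1 hp with rfl | h'
  · exact h
  · exact hP p h'

/-- pieces of comparable scales -/
theorem Fam.comparable (P : Multiset (ℝ × Multiset ℝ)) {A : ℝ} (hA : 0 < A) :
    Fam P → (∀ p ∈ P, 2 * p.1 ≤ A) → (∀ p ∈ P, A ≤ 8 * p.1) →
      ∀ μ : ℝ, TFM (sq (tot P) / A ^ 2) μ (tot P) A := by
  induction P using Multiset.induction_on with
  | empty =>
    intro _ _ _ μ
    rw [tot_zero, sq_zero, zero_div]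
    exact TFM.nil hA
  | cons p P ih =>
    intro hP h2 h8 μ
    have hp := hP p (Multiset.mem_cons_self p P)
    have h1 := hp.fits A (h2 p (Multiset.mem_cons_self p P)) (h8 p (Multiset.mem_cons_self p P))
    have h3 := ih (fun q hq => hP q (Multiset.mem_cons_of_mem hq))
      (fun q hq => h2 q (Multiset.mem_cons_of_mem hq))
      (fun q hq => h8 q (Multiset.mem_cons_of_mem hq))
    have hpos : 0 < sq p.2 / A ^ 2 := by
      have := hp.area
      have := hp.pos
      have : 0 < sq p.2 := lt_of_lt_of_le (by positivity) hp.area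
      positivity
    have hnn : 0 ≤ sq (tot P) / A ^ 2 := by
      have := sq_nonneg' (tot P)
      positivity
    have h4 := TFM.add (s := sq (tot P) / A ^ 2) (μ := μ - sq p.2 / A ^ 2)
      (t := sq p.2 / A ^ 2) (by linarith) hA (h1 _) (h3 _)
    rw [sub_add_cancel, ← add_div, add_comm (sq (tot P)), ← sq_add, ← tot_cons] at h4
    exact h4

theorem exists_max (P : Multiset (ℝ × Multiset ℝ)) (h : P ≠ 0) :
    ∃ p ∈ P, ∀ q ∈ P, q.1 ≤ p.1 := by
  induction P using Multiset.induction_on with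
  | empty => exact absurd rfl h
  | cons p P ih =>
    by_cases hP : P = 0
    · subst hP
      refine ⟨p, Multiset.mem_cons_self p 0, fun q hq => ?_⟩
      rcases Multiset.mem_cons.1 hq with rfl | h'
      · exact le_rfl
      · exact absurd h' (Multiset.notMem_zero q)
    · obtain ⟨r, hr, hmax⟩ := ih hP
      rcases le_total p.1 r.1 with h1 | h1
      · refine ⟨r, Multiset.mem_cons_of_mem hr, fun q hq => ?_⟩
        rcases Multiset.mem_cons.1 hq with rfl | h'
        · exact h1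
        · exact hmax q h'
      · refine ⟨p, Multiset.mem_cons_self p P, fun q hq => ?_⟩
        rcases Multiset.mem_cons.1 hq with rfl | h'
        · exact le_rfl
        · exact (hmax q h').trans h1

/-- pieces of any scales, for one left slope -/
theorem Fam.nest (k : ℕ) : ∀ P : Multiset (ℝ × Multiset ℝ), Multiset.card P ≤ k → Fam P →
    ∀ W : ℝ, (∀ p ∈ P, p.1 ≤ W) → (∃ p ∈ P, p.1 = W) → ∀ A : ℝ, 2 * W ≤ A → A ≤ 4 * W →
      ∃ μ : ℝ, TFM (sq (tot P) / A ^ 2) μ (tot P) A := by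
  classical
  induction k with
  | zero =>
    rintro P hk _ W _ ⟨p, hp, _⟩
    have h1 := Multiset.card_pos_iff_exists_mem.2 ⟨p, hp⟩
    omega
  | succ k ih =>
    rintro P hk hP W hW ⟨p₀, hp₀, hp₀W⟩ A hA2 hA4
    have hW0 : 0 < W := by rw [← hp₀W]; exact (hP p₀ hp₀).pos
    have hA0 : 0 < A := by linarith
    obtain ⟨σ, hσ⟩ : ∃ σ, σ = sq (tot P) := ⟨_, rfl⟩
    obtain ⟨P₁, hP₁⟩ : ∃ P₁, P₁ = P.filter (fun p => W ≤ 2 * p.1) := ⟨_, rfl⟩
    obtain ⟨P₂, hP₂⟩ : ∃ P₂, P₂ = P.filter (fun p => ¬ W ≤ 2 * p.1) := ⟨_, rfl⟩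
    have hPP : P = P₁ + P₂ := by
      rw [hP₁, hP₂]
      exact (Multiset.filter_add_not _ _).symm
    obtain ⟨σ₁, hσ₁⟩ : ∃ σ₁, σ₁ = sq (tot P₁) := ⟨_, rfl⟩
    obtain ⟨σ₂, hσ₂⟩ : ∃ σ₂, σ₂ = sq (tot P₂) := ⟨_, rfl⟩
    have hσσ : σ = σ₁ + σ₂ := by
      rw [hσ, hσ₁, hσ₂, ← sq_add, ← tot_add, ← hPP]
    have hσ₁0 : 0 ≤ σ₁ := by rw [hσ₁]; exact sq_nonneg' _
    have hσ₂0 : 0 ≤ σ₂ := by rw [hσ₂]; exact sq_nonneg' _
    have hF₁ : Fam P₁ := fun p hp => hP p (by rw [hP₁] at hp; exact Multiset.mem_of_mem_filter hp)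
    have hF₂ : Fam P₂ := fun p hp => hP p (by rw [hP₂] at hp; exact Multiset.mem_of_mem_filter hp)
    have hσ0 : 0 < σ := by
      have h1 := hP.sq_ge hp₀
      rw [← hσ, hp₀W] at h1
      have : 0 < 96 * W ^ 2 := by positivity
      linarith
    have hcomp : ∀ μ, TFM (σ₁ / A ^ 2) μ (tot P₁) A := by
      rw [hσ₁]
      refine Fam.comparable P₁ hA0 hF₁ (fun p hp => ?_) (fun p hp => ?_)
      · rw [hP₁] at hp
        have := hW p (Multiset.mem_of_mem_filter hp)
        linarith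
      · rw [hP₁] at hp
        have := (Multiset.mem_filter.1 hp).2
        linarith
    -- the integer `u`
    obtain ⟨u, c₂, hu1, hcu, hrec⟩ : ∃ (u : ℕ) (c₂ : ℝ), 1 ≤ u ∧ c₂ * u = A ∧
        ∀ μ, TFM (σ₂ / c₂ ^ 2) μ (tot P₂) c₂ := by
      by_cases hE : P₂ = 0
      · refine ⟨1, A, le_rfl, by simp, fun μ => ?_⟩
        rw [hσ₂, hE, tot_zero, sq_zero, zero_div]
        exact TFM.nil hA0
      · obtain ⟨p₁, hp₁, hmax⟩ := exists_max P₂ hE
        obtain ⟨V, hV⟩ : ∃ V, V = p₁.1 := ⟨_, rfl⟩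
        have hV0 : 0 < V := by rw [hV]; exact (hF₂ p₁ hp₁).pos
        have hVW : 2 * V < W := by
          rw [hV]
          rw [hP₂] at hp₁
          exact not_le.1 (Multiset.mem_filter.1 hp₁).2
        obtain ⟨u, hu⟩ : ∃ u : ℕ, u = ⌊A / (4 * V)⌋₊ := ⟨_, rfl⟩
        have hge : 1 ≤ A / (4 * V) := by
          rw [le_div_iff₀ (by positivity)]
          linarith
        have hu1 : 1 ≤ u := by
          rw [hu]
          exact Nat.le_floor (by exact_mod_cast hge)
        have hu1' : (1 : ℝ) ≤ u := by exact_mod_cast hu1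
        have hu2 : (u : ℝ) ≤ A / (4 * V) := by
          rw [hu]
          exact Nat.floor_le (by linarith)
        have hu3 : A / (4 * V) < u + 1 := by
          rw [hu]
          exact Nat.lt_floor_add_one _
        rw [le_div_iff₀ (by positivity)] at hu2
        rw [div_lt_iff₀ (by positivity)] at hu3
        obtain ⟨c₂, hc₂⟩ : ∃ c₂, c₂ = A / u := ⟨_, rfl⟩
        have hc4 : 4 * V ≤ c₂ := by
          rw [hc₂, le_div_iff₀ (by linarith)]
          linarith
        have hc8 : c₂ ≤ 8 * V := by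
          rw [hc₂, div_le_iff₀ (by linarith)]
          nlinarith
        obtain ⟨μ₂, hμ₂⟩ := ih P₂ (by
            have h3 : Multiset.card P = Multiset.card P₁ + Multiset.card P₂ := by
              rw [hPP, Multiset.card_add]
            have h4 : 0 < Multiset.card P₁ := by
              rw [Multiset.card_pos_iff_exists_mem]
              refine ⟨p₀, ?_⟩
              rw [hP₁, Multiset.mem_filter]
              exact ⟨hp₀, by linarith⟩
            omega) hF₂ V (fun p hp => by rw [hV]; exact hmax p hp) ⟨p₁, hp₁, hV.symm⟩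
          (c₂ / 2) (by linarith) (by linarith)
        refine ⟨u, c₂, hu1, by rw [hc₂]; field_simp, fun μ => ?_⟩
        have hσV := hF₂.sq_ge hp₁
        rw [← hσ₂, ← hV] at hσV
        have hc₂0 : 0 < c₂ := by linarith
        have h32 : 3 ≤ 2 * (σ₂ / c₂ ^ 2) := by
          rw [← mul_div_assoc, le_div_iff₀ (by positivity)]
          have : c₂ ^ 2 ≤ 64 * V ^ 2 := by nlinarith
          linarith
        rw [← hσ₂] at hμ₂
        have e1 : σ₂ / (c₂ / 2) ^ 2 = 4 * (σ₂ / c₂ ^ 2) := by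
          field_simp
          ring
        rw [e1] at hμ₂
        have h4 := hμ₂.nodal h32 μ
        have e2 : 2 * (c₂ / 2) = c₂ := by ring
        rwa [e2] at h4
    have hu0 : (0 : ℝ) < u := by exact_mod_cast hu1
    have hc₂ : 0 < c₂ := by
      by_contra hcon
      push Not at hcon
      have := mul_nonpos_of_nonpos_of_nonneg hcon hu0.le
      linarith
    -- the step
    have hs0 : 0 < σ / A ^ 2 := by positivity
    have key := TFM.first (s := σ / A ^ 2) (μ := σ / A ^ 2 - 1 / u) (c := c₂) (a := u)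
      (t := σ₁ / A ^ 2) (M := tot P₂) (M' := tot P₁) hs0 (by positivity) (u : ℤ) 1
      isCoprime_one_right (Int.natCast_nonneg u) (by rw [Int.cast_natCast, hcu]; exact hA0)
      (by
        rw [Int.cast_natCast, Int.cast_one]
        field_simp
        ring) (by rw [Int.cast_natCast]) (by
        rw [Int.cast_natCast, mul_comm (σ / A ^ 2)]
        refine mul_le_mul_of_nonneg_left ?_ hu0.le
        apply div_le_div_of_nonneg_right _ (by positivity)
        linarith) (by rw [Int.cast_natCast, hcu]; exact hcomp _) (by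
        rw [Int.cast_natCast]
        have e3 : σ / A ^ 2 * (u : ℝ) ^ 2 - σ₁ / A ^ 2 * (u : ℝ) ^ 2 = σ₂ / c₂ ^ 2 := by
          rw [hσσ, ← hcu]
          field_simp
          ring
        rw [e3]
        exact hrec _)
    rw [hcu, ← tot_add, ← hPP] at key
    rw [← hσ]
    exact ⟨_, key⟩

/-- pieces of small scales with a large area, all slopes -/
theorem Fam.dust {P : Multiset (ℝ × Multiset ℝ)} (hP : Fam P) {A : ℝ} (hA : 0 < A)
    (hPA : ∀ p ∈ P, 4 * p.1 ≤ A) (hs : 3 * A ^ 2 ≤ 2 * sq (tot P)) (μ : ℝ) :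
    TFM (sq (tot P) / A ^ 2) μ (tot P) A := by
  classical
  have hne : P ≠ 0 := by
    rintro rfl
    rw [tot_zero, sq_zero] at hs
    have : 0 < A ^ 2 := by positivity
    linarith
  obtain ⟨p₁, hp₁, hmax⟩ := exists_max P hne
  obtain ⟨W, hW⟩ : ∃ W, W = p₁.1 := ⟨_, rfl⟩
  have hW0 : 0 < W := by rw [hW]; exact (hP p₁ hp₁).pos
  have h1 := Fam.nest _ P le_rfl hP W (fun p hp => by rw [hW]; exact hmax p hp)
    ⟨p₁, hp₁, hW.symm⟩
  have hWA : 4 * W ≤ A := by rw [hW]; exact hPA p₁ hp₁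
  have hσW : 96 * W ^ 2 ≤ sq (tot P) := by
    have h2 := hP.sq_ge hp₁
    rwa [← hW] at h2
  obtain ⟨σ, hσ⟩ : ∃ σ, σ = sq (tot P) := ⟨_, rfl⟩
  rw [← hσ] at h1 hs hσW ⊢
  have h32 : 3 ≤ 2 * (σ / A ^ 2) := by
    rw [← mul_div_assoc, le_div_iff₀ (by positivity)]
    linarith
  have eA : σ / (A / 2) ^ 2 = 4 * (σ / A ^ 2) := by
    field_simp
    ring
  have e2 : 2 * (A / 2) = A := by ring
  suffices h : ∃ μ', TFM (σ / (A / 2) ^ 2) μ' (tot P) (A / 2) by
    obtain ⟨μ', hμ'⟩ := h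
    rw [eA] at hμ'
    have h2 := hμ'.nodal h32 μ
    rwa [e2] at h2
  rcases le_or_gt A (8 * W) with h8 | h8
  · exact h1 (A / 2) (by linarith) (by linarith)
  · obtain ⟨μ₁, hμ₁⟩ := h1 (2 * W) le_rfl (by linarith)
    have h33 : 3 ≤ 2 * (σ / (4 * W) ^ 2) := by
      rw [← mul_div_assoc, le_div_iff₀ (by positivity)]
      nlinarith
    have e3 : σ / (2 * W) ^ 2 = 4 * (σ / (4 * W) ^ 2) := by
      field_simp
      ring
    rw [e3] at hμ₁
    have h2 := hμ₁.nodal h33
    obtain ⟨a, ha⟩ : ∃ a, a = A / (8 * W) := ⟨_, rfl⟩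
    have ha1 : 1 ≤ a := by
      rw [ha, le_div_iff₀ (by positivity)]
      linarith
    have hσ0 : 0 < σ := lt_of_lt_of_le (by positivity) hσW
    have h3 : TFM (σ / (A / 2) ^ 2) (σ / (A / 2) ^ 2 * a) (tot P) (2 * (2 * W) * a) := by
      apply TFM.flat (by positivity) ha1
      have e4 : σ / (A / 2) ^ 2 * a ^ 2 = σ / (4 * W) ^ 2 := by
        rw [ha]
        field_simp
        ring
      rw [e4]
      exact h2 _
    have e5 : 2 * (2 * W) * a = A / 2 := by
      rw [ha]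
      field_simp
      ring
    rw [e5] at h3
    exact ⟨_, h3⟩

/-- pieces: the plane -/
theorem Fam.plane {P : Multiset (ℝ × Multiset ℝ)} (hP : Fam P) (hne : P ≠ 0) :
    ∃ μ : ℝ, TFM 9 μ (tot P) (√(sq (tot P)) / 3) := by
  classical
  obtain ⟨p₁, hp₁, hmax⟩ := exists_max P hne
  obtain ⟨W, hW⟩ : ∃ W, W = p₁.1 := ⟨_, rfl⟩
  have hW0 : 0 < W := by rw [hW]; exact (hP p₁ hp₁).pos
  have h1 := Fam.nest _ P le_rfl hP W (fun p hp => by rw [hW]; exact hmax p hp)
    ⟨p₁, hp₁, hW.symm⟩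
  have hσW : 96 * W ^ 2 ≤ sq (tot P) := by
    have h2 := hP.sq_ge hp₁
    rwa [← hW] at h2
  obtain ⟨σ, hσ⟩ : ∃ σ, σ = sq (tot P) := ⟨_, rfl⟩
  rw [← hσ] at h1 hσW ⊢
  have hσ0 : 0 < σ := lt_of_lt_of_le (by positivity) hσW
  have hs : √σ ^ 2 = σ := Real.sq_sqrt hσ0.le
  have hs0 : 0 < √σ := Real.sqrt_pos.2 hσ0
  rcases le_or_gt (12 * W) √σ with h12 | h12
  · obtain ⟨μ, hμ⟩ := h1 (2 * W) le_rfl (by linarith)
    have h32 : 3 ≤ 2 * (σ / (4 * W) ^ 2) := by
      rw [← mul_div_assoc, le_div_iff₀ (by positivity)]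
      nlinarith
    have e0 : σ / (2 * W) ^ 2 = 4 * (σ / (4 * W) ^ 2) := by
      field_simp
      ring
    rw [e0] at hμ
    have h2 := hμ.nodal h32
    obtain ⟨a, ha⟩ : ∃ a : ℝ, a = √σ / (12 * W) := ⟨_, rfl⟩
    have ha1 : 1 ≤ a := by
      rw [ha, le_div_iff₀ (by positivity)]
      linarith
    refine ⟨9 * a, ?_⟩
    have e1 : √σ / 3 = 2 * (2 * W) * a := by
      rw [ha]
      field_simp
      ring
    rw [e1]
    apply TFM.flat (by norm_num) ha1
    have e2 : 9 * a ^ 2 = σ / (4 * W) ^ 2 := by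
      rw [ha, div_pow, hs]
      field_simp
      ring
    rw [e2]
    exact h2 _
  · have h6 : 6 * W ≤ √σ := by
      apply Real.le_sqrt_of_sq_le
      nlinarith
    obtain ⟨μ, hμ⟩ := h1 (√σ / 3) (by linarith) (by linarith)
    refine ⟨μ, ?_⟩
    have e : σ / (√σ / 3) ^ 2 = 9 := by
      rw [div_pow, hs]
      field_simp
      norm_num
    rwa [e] at hμ

/-- equal weights -/
theorem Pc.block {n : ℕ} {w : ℝ} (hn : 96 ≤ n) (hw : 0 < w) :
    Pc w (Multiset.replicate n w) := by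
  have hn' : (96 : ℝ) ≤ n := by exact_mod_cast hn
  have h96 : 96 * w ^ 2 ≤ n * w ^ 2 := mul_le_mul_of_nonneg_right hn' (sq_nonneg _)
  refine ⟨hw, by rw [sq_replicate]; exact h96, fun A hA2 hA8 μ => ?_⟩
  rw [sq_replicate]
  refine TFM.block (by omega) hw hA2 ?_ μ
  have : A ^ 2 ≤ 64 * w ^ 2 := by nlinarith
  linarith

/-- a group of equal weights together with smaller pieces -/
theorem Pc.tube {P : Multiset (ℝ × Multiset ℝ)} (hP : Fam P) {y x : ℝ} {k : ℕ} (hx : 0 < x)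
    (hxy : x ≤ y) (hk : 1 ≤ k) (hk24 : k ≤ 24) (hPy : ∀ p ∈ P, 4 * p.1 ≤ y)
    (hs : 96 * y ^ 2 ≤ sq (tot P)) : Pc y (Multiset.replicate k x + tot P) := by
  have hy : 0 < y := by linarith
  have hk1 : (1 : ℝ) ≤ k := by exact_mod_cast hk
  have hk2 : (k : ℝ) ≤ 24 := by exact_mod_cast hk24
  have hkx : 0 ≤ k * x ^ 2 := by positivity
  obtain ⟨τ, hτ⟩ : ∃ τ, τ = sq (tot P) := ⟨_, rfl⟩
  have hσ : sq (Multiset.replicate k x + tot P) = k * x ^ 2 + τ := by
    rw [sq_add, sq_replicate, hτ]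
  rw [← hτ] at hs
  refine ⟨hy, by rw [hσ]; linarith, fun A hA2 hA8 μ => ?_⟩
  rw [hσ]
  obtain ⟨c, hc⟩ : ∃ c, c = A / 2 := ⟨_, rfl⟩
  have hcy : y ≤ c := by rw [hc]; linarith
  have hc4 : c ≤ 4 * y := by rw [hc]; linarith
  have hc0 : 0 < c := by linarith
  have hA : A = 2 * c := by rw [hc]; ring
  have hc2 : c ^ 2 ≤ 16 * y ^ 2 := by nlinarith
  rw [hA]
  apply TFM.nodal (μ := k * x / c)
  · rw [← mul_div_assoc, le_div_iff₀ (by positivity)]
    nlinarith
  have e1 : 4 * ((k * x ^ 2 + τ) / (2 * c) ^ 2) = (k * x ^ 2 + τ) / c ^ 2 := by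
    field_simp
    ring
  rw [e1]
  have h1 := TFM.cornerK (k := k) (s := (k * x ^ 2 + τ) / c ^ 2) (μ := k * x / c) (c := c)
    (M := tot P) hk (div_pos (by nlinarith) (by positivity)) (by positivity)
    (by
      rw [div_le_iff₀ hc0]
      exact mul_le_mul_of_nonneg_left (by linarith) (by linarith))
    (by
      rw [div_le_div_iff₀ hc0 (by positivity)]
      have h2 : k * x * c ≤ k * x ^ 2 + τ := by
        have h3 : k * x ≤ 24 * y := mul_le_mul hk2 hxy hx.le (by norm_num)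
        have h4 : k * x * c ≤ 24 * y * (4 * y) := mul_le_mul h3 hc4 hc0.le (by positivity)
        linarith
      have h5 := mul_le_mul_of_nonneg_right h2 hc0.le
      have e5 : k * x * c ^ 2 = k * x * c * c := by ring
      rw [e5]
      exact h5)
    (by
      have e6 : (k * x ^ 2 + τ) / c ^ 2 - (k * x / c) ^ 2 / k = τ / c ^ 2 := by
        have : (k : ℝ) ≠ 0 := by positivity
        field_simp
        ring
      rw [e6, hτ]
      refine hP.dust hc0 (fun p hp => ?_) ?_ _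
      · have := hPy p hp
        linarith
      · rw [← hτ]
        nlinarith)
  have e7 : c * (k * x / c / k) = x := by
    have : (k : ℝ) ≠ 0 := by positivity
    field_simp
  rwa [e7] at h1

end Pool.Agent.J4.H9.LD
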