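import Pool.Agent.TH207.NC.Rare

/-! Triangles of real slopes with multisets of weights; a group of equal weights in the corner. -/

set_option autoImplicit false

namespace Pool.Agent.J4.H9.LD

open Finset Pool.Agent.TH176.Nag Pool.Agent.TH207.NC
open Pool.Agent.H350R3 Pool.Agent.H350R3.GR

/-- two families with the same multiset of values -/
theorem exists_equiv {ι κ : Type} [Fintype ι] [Fintype κ] {L : ι → ℝ} {L' : κ → ℝ}
    (h : (univ : Finset ι).val.map L = (univ : Finset κ).val.map L') :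
    ∃ e : κ ≃ ι, ∀ j, L (e j) = L' j := by
  classical
  have hc : ∀ v : ℝ, Fintype.card {j // L' j = v} = Fintype.card {i // L i = v} := by
    intro v
    have h1 := congrArg (Multiset.count v) h
    rw [Multiset.count_map, Multiset.count_map] at h1
    rw [Fintype.card_subtype, Fintype.card_subtype, Finset.card_def, Finset.card_def,
      Finset.filter_val, Finset.filter_val]
    simp only [eq_comm (a := v)] at h1
    exact h1.symm
  refine ⟨(Equiv.sigmaFiberEquiv L').symm.trans ((Equiv.sigmaCongrRight fun v =>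
    Fintype.equivOfCardEq (hc v)).trans (Equiv.sigmaFiberEquiv L)), fun j => ?_⟩
  simp only [Equiv.trans_apply, Equiv.sigmaFiberEquiv, Equiv.sigmaCongrRight_apply,
    Equiv.coe_fn_symm_mk, Sigma.map_mk, Equiv.coe_fn_mk, id]
  exact ((Fintype.equivOfCardEq (hc (L' j))) ⟨j, rfl⟩).2

/-- the statement `TF` for a multiset of weights -/
def TFM (s μ : ℝ) (M : Multiset ℝ) (c : ℝ) : Prop :=
  ∀ (ι : Type) [Fintype ι] (L : ι → ℝ), (univ : Finset ι).val.map L = M → TF s μ L c

theorem TFM.of {ι : Type} [Fintype ι] {s μ c : ℝ} {L : ι → ℝ} {M : Multiset ℝ}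
    (h : TF s μ L c) (hM : (univ : Finset ι).val.map L = M) : TFM s μ M c := by
  intro κ _ L' hL'
  obtain ⟨e, he⟩ := exists_equiv (hM.trans hL'.symm)
  have h1 := h.equiv e
  rwa [show (fun j => L (e j)) = L' from funext he] at h1

theorem exists_rep (M : Multiset ℝ) : ∃ (n : ℕ) (L : Fin n → ℝ), (univ : Finset (Fin n)).val.map L = M := by
  induction M using Quotient.inductionOn with
  | h l =>
    refine ⟨l.length, l.get, ?_⟩
    rw [Fin.univ_val_map, List.ofFn_get]
    rfl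

theorem map_elim {ι κ : Type} [Fintype ι] [Fintype κ] (L : ι → ℝ) (L' : κ → ℝ) :
    (univ : Finset (ι ⊕ κ)).val.map (Sum.elim L L') =
      (univ : Finset ι).val.map L + (univ : Finset κ).val.map L' := by
  rw [← Finset.univ_disjSum_univ, Finset.val_disjSum, Multiset.disjSum, Multiset.map_add,
    Multiset.map_map, Multiset.map_map]
  rfl

theorem map_const_univ {ι : Type} [Fintype ι] (w : ℝ) :
    (univ : Finset ι).val.map (fun _ => w) = Multiset.replicate (Fintype.card ι) w := by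
  rw [Multiset.map_const']
  rfl

/-- the sum of the squares -/
noncomputable def sq (M : Multiset ℝ) : ℝ := (M.map fun x => x ^ 2).sum

@[simp] theorem sq_zero : sq 0 = 0 := by simp [sq]

theorem sq_add (M M' : Multiset ℝ) : sq (M + M') = sq M + sq M' := by
  simp [sq, Multiset.map_add, Multiset.sum_add]

theorem sq_nonneg' (M : Multiset ℝ) : 0 ≤ sq M := by
  unfold sq
  apply Multiset.sum_nonneg
  intro x hx
  obtain ⟨y, -, rfl⟩ := Multiset.mem_map.1 hx
  positivity

theorem sq_replicate (n : ℕ) (w : ℝ) : sq (Multiset.replicate n w) = n * w ^ 2 := by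
  simp [sq, Multiset.map_replicate, Multiset.sum_replicate]

theorem sq_map {ι : Type} [Fintype ι] (L : ι → ℝ) :
    sq ((univ : Finset ι).val.map L) = ∑ i, L i ^ 2 := by
  rw [sq, Multiset.map_map]
  rfl

theorem TFM.nil {μ c : ℝ} (hc : 0 < c) : TFM 0 μ 0 c :=
  TFM.of (TF.nil (ι := Empty) hc (fun _ => 0)) (by simp)

theorem TFM.add {s μ c t : ℝ} {M M' : Multiset ℝ} (hs : 0 < s + t) (hc : 0 < c)
    (h' : TFM t (μ + t) M' c) (h : TFM s μ M c) : TFM (s + t) (μ + t) (M' + M) c := by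
  obtain ⟨n, L, hL⟩ := exists_rep M
  obtain ⟨n', L', hL'⟩ := exists_rep M'
  exact TFM.of (TF.add hs hc (h' _ L' hL') (h _ L hL)) (by rw [map_elim, hL, hL'])

theorem TFM.first {s μ c a t : ℝ} {M M' : Multiset ℝ} (hs : 0 < s) (ht : 0 ≤ t)
    (u v : ℤ) (hc : IsCoprime u v) (hu : 0 ≤ u) (hc0 : 0 < c * u)
    (hq : s * a = u * μ + v) (h1 : (u : ℝ) ≤ a)
    (h2 : (u : ℝ) * t ≤ s * a) (h' : TFM t μ M' (c * u))
    (h : TFM (s * a ^ 2 - t * (u : ℝ) ^ 2) (u * (s * a - u * t)) M c) :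
    TFM s μ (M' + M) (c * a) := by
  obtain ⟨n, L, hL⟩ := exists_rep M
  obtain ⟨n', L', hL'⟩ := exists_rep M'
  exact TFM.of (TF.first hs ht u v hc hu hc0 hq h1 h2 (h' _ L' hL') (h _ L hL))
    (by rw [map_elim, hL, hL'])

theorem TFM.flat {s a c : ℝ} {M : Multiset ℝ} (hs : 0 < s) (h1 : 1 ≤ a)
    (h : TFM (s * a ^ 2) (s * a) M c) : TFM s (s * a) M (c * a) := by
  intro ι _ L hL
  exact TF.flat hs h1 (h ι L hL)

theorem TFM.nodal {δ μ c : ℝ} {M : Multiset ℝ} (hδ : 3 ≤ 2 * δ)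
    (h : TFM (4 * δ) μ M c) (μ' : ℝ) : TFM δ μ' M (2 * c) := by
  intro ι _ L hL
  exact TF.nodal hδ (h ι L hL) μ'

theorem TFM.block {n : ℕ} {w A : ℝ} (hn : 1 ≤ n) (hw : 0 < w)
    (hA : 2 * w ≤ A) (hn' : 3 * A ^ 2 ≤ 2 * (n * w ^ 2)) (μ : ℝ) :
    TFM (n * w ^ 2 / A ^ 2) μ (Multiset.replicate n w) A := by
  have h := TF.block (ι := Fin n) (w := w) (A := A) (by simpa using hn) hw hA (by simpa using hn') μ
  rw [Fintype.card_fin] at h
  exact TFM.of h (by rw [map_const_univ, Fintype.card_fin])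

/-- a group of equal weights absorbed into the left corner of a triangle with left slope `μ` -/
theorem TF.cornerK {ι κ : Type} [Fintype ι] [Fintype κ] {s μ c k : ℝ} {L : ι → ℝ}
    (hκ : 1 ≤ Fintype.card κ) (hk : k = Fintype.card κ) (hs : 0 < s) (h0 : 0 ≤ μ)
    (h1 : μ ≤ k) (h2 : μ ≤ s) (h : TF (s - μ ^ 2 / k) (μ * (1 - μ / k)) L c) :
    TF s μ (Sum.elim (fun _ : κ => c * (μ / k)) L) c := by
  have hk1 : 1 ≤ k := by rw [hk]; exact_mod_cast hκ
  have hk0 : 0 < k := by linarith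
  intro α β w hw
  rw [Fintype.sum_sum_type] at hw
  simp only [Sum.elim_inl, Sum.elim_inr] at hw
  have h' : TF k μ (fun _ : κ => (1 : ℝ)) 1 := by
    rw [hk]
    exact TF.points (ι := κ) hκ μ
  have key := h'.absorb (w := fun i => w (Sum.inr i)) one_pos (fun i => w (Sum.inl i)) (α := α)
    (β := β) (ν := s - μ) (by linarith) ?_
  · have e : Sum.elim (fun i => w (Sum.inl i)) (fun i => w (Sum.inr i)) = w := by
      funext i
      rcases i with i | i <;> rfl
    rwa [e] at key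
  obtain ⟨B, hB⟩ : ∃ B : ℝ, B = (∑ i : κ, 1 * (w (Sum.inl i) : ℝ)) / 1 := ⟨_, rfl⟩
  rw [← hB]
  have hB' : ∑ i : κ, (w (Sum.inl i) : ℝ) = B := by
    rw [hB]
    simp
  rw [← Finset.mul_sum, hB'] at hw
  refine Emp_second (x := μ / k) 1 0 isCoprime_one_left (by norm_num) hk0.le (by positivity)
    (by push_cast; field_simp; ring) (by push_cast; rw [div_le_one hk0]; exact h1)
    (by push_cast; linarith) ?_
  have e0 : k * (μ / k) = μ := by field_simp
  have e1 : (1 - μ / k) * (k * (μ / k)) = μ * (1 - μ / k) := by rw [e0]; ring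
  have e2 : (1 : ℝ) * (1 * (μ + (s - μ)) - k * (μ / k)) = s - μ ^ 2 / k - μ * (1 - μ / k) := by
    rw [e0]; field_simp; ring
  push_cast
  rw [e1, e2]
  apply h
  have e3 : c * (1 * β - (1 * α + μ / k * B)) = c * (β - α) - c * (μ / k) * B := by ring
  rw [e3]
  linarith

theorem TFM.cornerK {k : ℕ} {s μ c : ℝ} {M : Multiset ℝ}
    (hk : 1 ≤ k) (hs : 0 < s) (h0 : 0 ≤ μ)
    (h1 : μ ≤ k) (h2 : μ ≤ s) (h : TFM (s - μ ^ 2 / k) (μ * (1 - μ / k)) M c) :
    TFM s μ (Multiset.replicate k (c * (μ / k)) + M) c := by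
  obtain ⟨n, L, hL⟩ := exists_rep M
  have h3 := TF.cornerK (κ := Fin k) (k := k) (by simpa using hk) (by simp) hs h0 h1 h2 (h _ L hL)
  exact TFM.of h3 (by rw [map_elim, hL, map_const_univ, Fintype.card_fin])

end Pool.Agent.J4.H9.LD
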